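import Pool.Agent.Y522.Stm6
import Pool.Agent.Y522.Tools

/-!
# Project SD: directionally monotone homeomorphisms onto closed affine manifolds (statements)

The target `T` is a compact space with a developing map `π : E n → T` on an open set `Ω`, which is
a local homeomorphism onto `T` and is unique up to affine transformations of the germs.
-/

set_option autoImplicit false

open Set Filter Topology Metric Function MeasureTheory
open scoped Manifold ContDiff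

noncomputable section

namespace Pool.Agent.Y521.SD

open Pool.Agent.Y522

/-- `π : Ω → T` defines an affine structure on `T` -/
structure Aff (n : ℕ) {T : Type} [TopologicalSpace T] (Ω : Set (E n)) (π : E n → T) : Prop where
  opn : IsOpen Ω
  cont : ContinuousOn π Ω
  nhd : ∀ v ∈ Ω, ∀ U ∈ 𝓝 v, π '' U ∈ 𝓝 (π v)
  inj : ∀ v ∈ Ω, ∃ U ∈ 𝓝 v, InjOn π U
  surj : ∀ t, ∃ v ∈ Ω, π v = t
  aff : ∀ u ∈ Ω, ∀ v ∈ Ω, π u = π v →
    ∃ L : E n ≃L[ℝ] E n, ∀ᶠ w in 𝓝 u, π (L (w - u) + v) = π w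

section defs

variable (n : ℕ) {X : Type} [TopologicalSpace X] [ChartedSpace (E n) X] {T : Type}
  [TopologicalSpace T] (Ω : Set (E n)) (π : E n → T)

/-- `G` is a local lift of `h` at `x` -/
def Lift (h : X → T) (G : X → E n) (x : X) : Prop :=
  G x ∈ Ω ∧ ∀ᶠ y in 𝓝 x, ContinuousAt G y ∧ π (G y) = h y

/-- `h : X → T` is a local diffeomorphism at `x` in affine coordinates -/
def LDp (h : X → T) (x : X) : Prop := ∃ G : X → E n, Lift n Ω π h G x ∧ LD n G x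

/-- `h : X → T` is directionally monotone at `x` in affine coordinates -/
def DMp (h : X → T) (x : X) : Prop := ∃ G : X → E n, Lift n Ω π h G x ∧ DMon n G x

end defs

/-- one step of the smoothing, with control of the distance -/
def StStep : Prop :=
  ∀ (n : ℕ) (X : Type) [TopologicalSpace X] [T2Space X] [ChartedSpace (E n) X]
    [IsManifold (𝓡 n) ∞ X] (F : X → E n) (W : Set X) (N : ℕ) (B : Fin N → E n → X) (k : Fin N)
    (ρ ρ' κ κ' e : ℝ), IsOpen W → ContinuousOn F W → (∀ j, InjOn (B j) (closedBall 0 2)) →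
    (∀ j, ∀ z ∈ closedBall 0 2, LD n (B j) z) → (∀ j, ∀ z ∈ closedBall 0 2, B j z ∈ W) →
    3 / 2 ≤ ρ' → ρ' < ρ → ρ ≤ 2 → 0 < κ' → κ' < κ → 0 < e →
    (∀ j, MBox n F (B j) ρ κ) →
    ∃ F' : X → E n, ContinuousOn F' W ∧ (∀ p, p ∉ B k '' closedBall 0 1 → F' p = F p) ∧
      (∀ p, ‖F' p - F p‖ ≤ e) ∧ (∀ p, LD n F p → LD n F' p) ∧
      (∀ z, ‖z‖ ≤ 1 / 2 → LD n F' (B k z)) ∧ ∀ j, MBox n F' (B j) ρ' κ'

/-- uniform boxes inside an open set -/
def StBox : Prop :=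
  ∀ (n : ℕ) (X : Type) [TopologicalSpace X] [ChartedSpace (E n) X] (F : X → E n) (x : X)
    (W : Set X), IsOpen W → x ∈ W →
    DMon n F x → ∃ (B : E n → X) (κ : ℝ), 0 < κ ∧ B 0 = x ∧ InjOn B (closedBall 0 2) ∧
      (∀ z ∈ closedBall 0 2, LD n B z) ∧ (∀ z ∈ closedBall 0 2, B z ∈ W) ∧ MBox n F B 2 κ

/-- smoothing near a compact set -/
def StPhase : Prop :=
  ∀ (n : ℕ) (X : Type) [TopologicalSpace X] [T2Space X] [ChartedSpace (E n) X]
    [IsManifold (𝓡 n) ∞ X] (F : X → E n) (W : Set X) (U : Set (E n)) (K : Set X),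
    IsOpen W → ContinuousOn F W → IsOpen U → MapsTo F W U → InjOn F W →
    (∀ L ⊆ U, IsCompact L → IsCompact (W ∩ F ⁻¹' L)) →
    (∀ x ∈ W, LD n F x ∨ DMon n F x) → IsCompact K → K ⊆ W →
    ∃ C : Set X, IsCompact C ∧ C ⊆ W ∧ ∀ e : ℝ, 0 < e → ∃ F' : X → E n,
      ContinuousOn F' W ∧ (∀ p, p ∉ C → F' p = F p) ∧ (∀ p, ‖F' p - F p‖ ≤ e) ∧
      MapsTo F' W U ∧ InjOn F' W ∧ (∀ x, LD n F x → LD n F' x) ∧ (∀ x ∈ K, LD n F' x) ∧
      ∀ x ∈ W, LD n F' x ∨ DMon n F' x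

/-- one stage of the smoothing of a map to an affine manifold -/
def StStage : Prop :=
  ∀ (n : ℕ) (T : Type) [TopologicalSpace T] [T2Space T] (Ω : Set (E n)) (π : E n → T)
    (X : Type) [TopologicalSpace X] [T2Space X] [CompactSpace X] [ChartedSpace (E n) X]
    [IsManifold (𝓡 n) ∞ X] (h : X → T) (m : ℕ) (D : Fin m → Set X) (v : Fin m → E n)
    (r : Fin m → ℝ) (i : Fin m), Aff n Ω π → Continuous h → Injective h →
    (∀ x, LDp n Ω π h x ∨ DMp n Ω π h x) → (∀ l, IsCompact (D l)) → (∀ l, 0 < r l) →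
    (∀ l, ball (v l) (r l) ⊆ Ω) → (∀ l, InjOn π (ball (v l) (r l))) →
    (∀ l, h '' D l ⊆ π '' ball (v l) (r l)) →
    ∃ h' : X → T, Continuous h' ∧ Injective h' ∧ (∀ x, LDp n Ω π h' x ∨ DMp n Ω π h' x) ∧
      (∀ l, h' '' D l ⊆ π '' ball (v l) (r l)) ∧ (∀ x, LDp n Ω π h x → LDp n Ω π h' x) ∧
      ∀ x ∈ D i, LDp n Ω π h' x

/-- smoothing of directionally monotone homeomorphisms onto closed affine manifolds -/
def StAll : Prop :=
  ∀ (n : ℕ) (T : Type) [TopologicalSpace T] [T2Space T] [ConnectedSpace T] (Ω : Set (E n))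
    (π : E n → T) (X : Type) [TopologicalSpace X] [T2Space X] [CompactSpace X]
    [ChartedSpace (E n) X] [IsManifold (𝓡 n) ∞ X] (h : X ≃ₜ T), Aff n Ω π →
    (∀ x, DMp n Ω π h x) → ∃ h' : X ≃ₜ T, ∀ x, LDp n Ω π h' x

/-- two smooth manifolds with directionally monotone homeomorphisms onto the same closed affine
manifold are diffeomorphic -/
def StDiff : Prop :=
  ∀ (n : ℕ) (T : Type) [TopologicalSpace T] [T2Space T] [CompactSpace T] [ConnectedSpace T]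
    (Ω : Set (E n)) (π : E n → T)
    (X Y : Type) [TopologicalSpace X] [ChartedSpace (E n) X] [IsManifold (𝓡 n) ∞ X]
    [TopologicalSpace Y] [ChartedSpace (E n) Y] [IsManifold (𝓡 n) ∞ Y]
    (h : X ≃ₜ T) (k : Y ≃ₜ T), Aff n Ω π →
    (∀ x, DMp n Ω π h x) → (∀ y, DMp n Ω π k y) → Nonempty (Diffeomorph (𝓡 n) (𝓡 n) X Y ∞)

/-- the affine structure of `S¹ × S³` -/
def pS (x : E 4) : Circle × sphere (0 : E 4) 1 :=
  (Circle.exp (2 * Real.pi * Real.logb 2 ‖x‖),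
    if h : x = 0 then ⟨EuclideanSpace.single 0 1, by simp⟩
    else ⟨‖x‖⁻¹ • x, by simp [norm_smul, norm_ne_zero_iff.2 h]⟩)

/-- `S¹ × S³` is an affine manifold -/
def StS : Prop := Aff 4 {x : E 4 | x ≠ 0} pS

/-- the twisted product -/
abbrev Tw : Type := {p : ℂ × ℂ × E 3 // ‖p.1‖ = 1 ∧ p.2.1 ^ 2 = ((‖p.2.1‖ ^ 2 : ℝ) : ℂ) * p.1 ∧
  ‖p.2.1‖ ^ 2 + ‖p.2.2‖ ^ 2 = 1}

/-- the developing map of the twisted product, without the proof -/
def pTw (x : E 4) : ℂ × ℂ × E 3 :=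
  (Complex.exp (2 * Real.pi * Real.logb 2 ‖x‖ * Complex.I),
    ((‖x‖⁻¹ * x 0 : ℝ) : ℂ) * Complex.exp (Real.pi * Real.logb 2 ‖x‖ * Complex.I),
    ‖x‖⁻¹ • WithLp.toLp 2 (fun i : Fin 3 => x i.succ))

/-- The twisted product is an affine manifold. -/
def StTw : Prop :=
  (∀ x : E 4, x ≠ 0 → ‖(pTw x).1‖ = 1 ∧
    (pTw x).2.1 ^ 2 = ((‖(pTw x).2.1‖ ^ 2 : ℝ) : ℂ) * (pTw x).1 ∧
    ‖(pTw x).2.1‖ ^ 2 + ‖(pTw x).2.2‖ ^ 2 = 1) ∧
  ∀ π : E 4 → Tw, (∀ x : E 4, x ≠ 0 → (π x : ℂ × ℂ × E 3) = pTw x) → Aff 4 {x : E 4 | x ≠ 0} π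

/-- A criterion for affine structures: quotients of an open set by an infinite cyclic linear group
with a compact fundamental set. -/
def StQuot : Prop :=
  ∀ (n : ℕ) (T : Type) [TopologicalSpace T] [T2Space T] (A : E n ≃L[ℝ] E n) (π : E n → T),
    (∀ x, ‖A x‖ = 2 * ‖x‖) → ContinuousOn π {x | x ≠ 0} →
    (∀ t, ∃ v, 1 ≤ ‖v‖ ∧ ‖v‖ ≤ 2 ∧ π v = t) → (∀ x, x ≠ 0 → π (A x) = π x) →
    (∀ u v, u ≠ 0 → v ≠ 0 → ‖u‖ ≤ ‖v‖ → π u = π v → ∃ k : ℕ, v = (A ^ k) u) →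
    Aff n {x | x ≠ 0} π

end Pool.Agent.Y521.SD
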