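import Pool.Agent.Y419.SD.Box
import Pool.Agent.Y419.SD.Quot
import Pool.Agent.Y407.SD.Phase
import Pool.Agent.Y563.SD.Stage
import Pool.Agent.Y261.SD.All
import Pool.Agent.Y474.SD.Diff
import Pool.Agent.Y288.SD.S
import Pool.Agent.Y379.SD.Tw
import Pool.Agent.Y521.SD.Step
import Pool.Agent.Y522.DMono

/-!
# Project SD: assembly

`Pool.Agent.Y521.SD` : directionally monotone homeomorphisms onto closed affine manifolds.
The parts are by helper419 (boxes, criterion for affine structures), helper407 (smoothing near a
compact set), helper563 (one stage), helper261 (induction), helper474 (diffeomorphism), helper288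
(`S¹ × S³`), helper379 (twisted product); the method is that of helper522's project SH3.
-/

set_option autoImplicit false

open Set Filter Topology Metric Function MeasureTheory
open scoped Manifold ContDiff

noncomputable section

namespace Pool.Agent.Y521.SD

open Pool.Agent.Y522

theorem stStep : StStep :=
  step Pool.Agent.Y954.SH.mollS (Pool.Agent.Y270.SH.mollP Pool.Agent.Y954.SH.mollS)
    Pool.Agent.Y977.SH.disp

theorem stPhase : StPhase := Pool.Agent.Y407.SD.phase stStep Pool.Agent.Y419.SD.box

theorem stStage : StStage := Pool.Agent.Y563.SD.stage stPhase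

theorem stAll : StAll := Pool.Agent.Y261.SD.all stStage

/-- smooth manifolds with directionally monotone homeomorphisms onto the same closed affine
manifold are diffeomorphic -/
theorem stDiff : StDiff := Pool.Agent.Y474.SD.diff stAll

theorem stS : StS := Pool.Agent.Y288.SD.sS Pool.Agent.Y419.SD.quot

theorem stTw : StTw := Pool.Agent.Y379.SD.sTw Pool.Agent.Y419.SD.quot

end Pool.Agent.Y521.SD
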